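import Pool.Agent.H11.KT.Targets

/-!
# Row F_SO of the board `elk_modules`: an abelian normal section
-/

set_option autoImplicit false

open scoped commutatorElement

namespace Pool.Agent.H63.KT

open Pool.Agent.H11.EL Pool.Agent.H11.KT

theorem pf_SO : F_SO := by
  intro G _ hG C hC hCt
  have hQ : Group.IsSolvable (G ⧸ C) := inferInstance
  obtain ⟨n, hn⟩ := hQ.solvable
  have hex : ∃ k, derivedSeries (G ⧸ C) k = ⊥ := ⟨n, hn⟩
  classical
  have hk := Nat.find_spec hex
  have hpos : Nat.find hex ≠ 0 := by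
    intro h0
    rw [h0, derivedSeries_zero] at hk
    apply hCt
    rw [eq_top_iff]
    intro x _
    have h1 : (QuotientGroup.mk' C x) ∈ (⊤ : Subgroup (G ⧸ C)) := Subgroup.mem_top _
    rw [hk, Subgroup.mem_bot] at h1
    rwa [QuotientGroup.mk'_apply, QuotientGroup.eq_one_iff] at h1
  obtain ⟨m, hm⟩ := Nat.exists_eq_succ_of_ne_zero hpos
  have hmin : derivedSeries (G ⧸ C) m ≠ ⊥ := Nat.find_min hex (by omega)
  rw [hm] at hk
  set D := derivedSeries (G ⧸ C) m with hD
  have hDD : ⁅D, D⁆ = ⊥ := hk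
  have hCle : C ≤ D.comap (QuotientGroup.mk' C) := by
    intro x hx
    rw [Subgroup.mem_comap]
    have : QuotientGroup.mk' C x = 1 := by
      rw [QuotientGroup.mk'_apply, QuotientGroup.eq_one_iff]
      exact hx
    rw [this]
    exact D.one_mem
  refine ⟨D.comap (QuotientGroup.mk' C), ?_, ?_, ?_⟩
  · have : D.Normal := derivedSeries_normal (G ⧸ C) m
    exact this.comap _
  · refine lt_of_le_of_ne hCle fun h => hmin ?_
    rw [eq_bot_iff]
    intro z hz
    obtain ⟨x, rfl⟩ := QuotientGroup.mk'_surjective C z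
    have h1 : x ∈ D.comap (QuotientGroup.mk' C) := hz
    rw [← h] at h1
    rw [Subgroup.mem_bot, QuotientGroup.mk'_apply, QuotientGroup.eq_one_iff]
    exact h1
  · have h1 : ⁅D.comap (QuotientGroup.mk' C), D.comap (QuotientGroup.mk' C)⁆.map
        (QuotientGroup.mk' C) ≤ ⊥ := by
      rw [Subgroup.map_commutator, ← hDD]
      exact Subgroup.commutator_mono (Subgroup.map_comap_le _ _) (Subgroup.map_comap_le _ _)
    intro x hx
    have h2 := h1 (Subgroup.mem_map_of_mem _ hx)
    rwa [Subgroup.mem_bot, QuotientGroup.mk'_apply, QuotientGroup.eq_one_iff] at h2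

end Pool.Agent.H63.KT
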