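import Pool.Agent.H11.KT.Targets

/-!
# Row P_KP of the board `elk_modules`: the key theorem for words
-/

set_option autoImplicit false

open scoped commutatorElement

namespace Pool.Agent.H63.KT

open Pool.Agent.H11.EL Pool.Agent.H11.KT

theorem pf_KP (hKT : K_KT) : P_KP := by
  intro r w s m
  obtain ⟨f, hf⟩ := hKT s
  refine ⟨f * m, ?_⟩
  intro G _ L _ hL u c hu hc hPW g hg
  have hle : ⁅L, L⁆ ≤ L := Subgroup.commutator_le.2 fun a ha b hb =>
    L.mul_mem (L.mul_mem (L.mul_mem ha hb) (L.inv_mem ha)) (L.inv_mem hb)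
  have huL : ∀ i, u i ∈ L := fun i => by
    rw [← hu]
    exact Subgroup.subset_closure ⟨i, rfl⟩
  have hmap : (commutator L).map L.subtype = ⁅L, L⁆ := Subgroup.map_subtype_commutator L
  have hcm : ∀ x ∈ ⁅L, L⁆, ∃ z : L, z ∈ commutator L ∧ (z : G) = x := by
    intro x hx
    rw [← hmap] at hx
    obtain ⟨z, hz, hzx⟩ := hx
    exact ⟨z, hz, hzx⟩
  choose c' hc' hcc' using fun i => hcm (c i) (hc i)
  obtain ⟨g', hg', hgg'⟩ := hcm g hg
  let u' : Fin s → L := fun i => ⟨u i, huL i⟩
  have hcl : Subgroup.closure (Set.range u') = ⊤ := by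
    rw [eq_top_iff]
    intro x _
    have h1 : (Subgroup.closure (Set.range u')).map L.subtype = L := by
      rw [MonoidHom.map_closure]
      have : L.subtype '' Set.range u' = Set.range u := by
        rw [← Set.range_comp]
        rfl
      rw [this, hu]
    have h2 : (x : G) ∈ (Subgroup.closure (Set.range u')).map L.subtype := by
      rw [h1]; exact x.2
    obtain ⟨z, hz, hzx⟩ := h2
    have : z = x := Subtype.ext hzx
    rw [← this]
    exact hz
  have hn : ∀ i, (u' i)⁻¹ * ((c' i)⁻¹ * u' i) ∈ commutator L := by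
    intro i
    have hnorm : (commutator L).Normal := inferInstance
    have h1 := hnorm.conj_mem _ ((commutator L).inv_mem (hc' i)) (u' i)⁻¹
    rwa [inv_inv, mul_assoc] at h1
  obtain ⟨l, hl1, hl2, hl3⟩ := hf L hL u' (fun i => (c' i)⁻¹ * u' i) hcl hn g' hg'
  have hval : ∀ i, (((c' i)⁻¹ * u' i : L) : G) = (c i)⁻¹ * u i := by
    intro i
    rw [Subgroup.coe_mul, Subgroup.coe_inv, hcc' i]
  have hall : ∀ x ∈ l.map (fun z : L => (z : G)), PW w m x := by
    intro x hx
    rw [List.mem_map] at hx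
    obtain ⟨z, hz, rfl⟩ := hx
    obtain ⟨i, a, h | h⟩ := hl2 z hz
    · have h1 : (z : G) = MulAut.conj (a : G) ((c i)⁻¹ * u i) := by
        rw [h, MulAut.conj_apply, Subgroup.coe_mul, Subgroup.coe_mul, Subgroup.coe_inv, hval]
      rw [h1]
      exact (hPW i).map (MulAut.conj (a : G)).toMonoidHom
    · have h1 : (z : G) = MulAut.conj (a : G) (((c i)⁻¹ * u i)⁻¹) := by
        rw [h, MulAut.conj_apply, Subgroup.coe_mul, Subgroup.coe_mul, Subgroup.coe_inv,
          Subgroup.coe_inv, hval]
      rw [h1]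
      exact (hPW i).inv.map (MulAut.conj (a : G)).toMonoidHom
  have h2 := PW.list _ hall
  have h3 : (l.map (fun z : L => (z : G))).prod = g := by
    rw [← hgg', ← hl3]
    exact (map_list_prod L.subtype l).symm
  rw [h3, List.length_map] at h2
  exact h2.mono (Nat.mul_le_mul_right m hl1)

end Pool.Agent.H63.KT
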